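import Mathlib

/-!
# The radius of convergence of every `q`-deformed real number is at least `(3 - √5) / 2`

The key observation: for a complex number `z` with `‖z‖ = r ≤ (3 - √5) / 2`, the closed disc
`‖w - 1‖ ≤ 1 - r` is mapped into itself by `w ↦ 1 + z * w` and by `w ↦ 1 + z * (1 - 1 / w)`.
Every step `w ↦ [c]_z - z ^ (c - 1) / w` with `c ≥ 2` of the `q`-deformed continued fraction is a
composition of these two maps, so all truncations are holomorphic and bounded by `2` on the disc.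
-/

open Filter Topology

namespace Pool.Agent.Results.MP_b13893_an.RadiusBound

/-- The real number `[[c 0, c 1, …, c N]] = c 0 - 1 / (c 1 - 1 / (⋯ - 1 / c N))`. -/
noncomputable def negCF : (ℕ → ℕ) → ℕ → ℝ
  | c, 0 => c 0
  | c, N + 1 => c 0 - 1 / negCF (fun j => c (j + 1)) N

/-- The indeterminate `q` of the field `ℚ((q))` of Laurent series. -/
noncomputable def q : LaurentSeries ℚ := HahnSeries.single 1 1

/-- The `q`-integer `[n]_q = (1 - q ^ n) / (1 - q)`. -/
noncomputable def qInt (n : ℕ) : LaurentSeries ℚ := (1 - q ^ n) / (1 - q)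

/-- The `q`-deformed truncation `[[c 0, c 1, …, c N]]_q`, an element of `ℚ((q))`. -/
noncomputable def qNegCF : (ℕ → ℕ) → ℕ → LaurentSeries ℚ
  | c, 0 => qInt (c 0)
  | c, N + 1 => qInt (c 0) - q ^ (c 0 - 1) / qNegCF (fun j => c (j + 1)) N

/-- `Q : ℝ → ℚ((q))` is the `q`-deformation `x ↦ [x]_q` of the real numbers: if `x` has the
negative continued fraction expansion `[[c 0, c 1, …]]` with all `c j ≥ 2`, then `Q x` is the
`q`-adic limit of the truncations `[[c 0, …, c N]]_q`, and `Q (x - 1) = q⁻¹ (Q x - 1)` for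
every real `x`. -/
structure IsQDeformation (Q : ℝ → LaurentSeries ℚ) : Prop where
  limit : ∀ (x : ℝ) (c : ℕ → ℕ), (∀ j, 2 ≤ c j) → Tendsto (negCF c) atTop (𝓝 x) →
    ∀ M : ℤ, ∀ᶠ N in atTop, ∀ m ≤ M, (qNegCF c N).coeff m = (Q x).coeff m
  shift : ∀ x : ℝ, Q (x - 1) = q⁻¹ * (Q x - 1)

/-- The radius of convergence of a Laurent series `∑ a_n q ^ n` with rational coefficients
(the finite principal part is discarded), as a complex power series. -/
noncomputable def convRadius (f : LaurentSeries ℚ) : ENNReal :=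
  (FormalMultilinearSeries.ofScalars ℂ (fun n : ℕ => ((f.coeff (n : ℤ) : ℚ) : ℂ))).radius

/-! ### Real negative continued fractions -/

/-- tails of the expansion -/
noncomputable def tl (x : ℝ) : ℕ → ℝ
  | 0 => x
  | n + 1 => 1 / ((⌊tl x n⌋₊ : ℝ) + 1 - tl x n)

/-- digits of the expansion -/
noncomputable def dig (x : ℝ) (n : ℕ) : ℕ := ⌊tl x n⌋₊ + 1

lemma tl_ge_one {x : ℝ} (hx : 1 ≤ x) : ∀ n, 1 ≤ tl x n := by
  intro n
  induction n with
  | zero => exact hx
  | succ n ih =>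
    have h1 : (⌊tl x n⌋₊ : ℝ) ≤ tl x n := Nat.floor_le (by linarith)
    have h2 : tl x n < (⌊tl x n⌋₊ : ℝ) + 1 := Nat.lt_floor_add_one _
    rw [tl, le_div_iff₀ (by linarith)]
    linarith

lemma two_le_dig {x : ℝ} (hx : 1 ≤ x) (n : ℕ) : 2 ≤ dig x n := by
  have h := tl_ge_one hx n
  have : 1 ≤ ⌊tl x n⌋₊ := by
    rw [Nat.one_le_floor_iff]
    exact h
  unfold dig
  omega

lemma tl_succ' (x : ℝ) (n : ℕ) : tl x (n + 1) = tl (tl x 1) n := by
  induction n with
  | zero => rfl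
  | succ n ih =>
    rw [tl, ih]
    rfl

lemma dig_succ' (x : ℝ) (n : ℕ) : dig x (n + 1) = dig (tl x 1) n := by
  unfold dig
  rw [tl_succ']

lemma eq_dig_sub (x : ℝ) : x = dig x 0 - 1 / tl x 1 := by
  have h2 : x < (⌊x⌋₊ : ℝ) + 1 := Nat.lt_floor_add_one _
  have h3 : (⌊x⌋₊ : ℝ) + 1 - x ≠ 0 := by linarith
  simp only [tl, dig]
  push_cast
  rw [one_div_one_div]
  ring

lemma negCF_ge_one : ∀ (N : ℕ) (c : ℕ → ℕ), (∀ j, 2 ≤ c j) → 1 ≤ negCF c N := by
  intro N
  induction N with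
  | zero =>
    intro c hc
    have := hc 0
    simp only [negCF]
    exact_mod_cast (by omega : 1 ≤ c 0)
  | succ N ih =>
    intro c hc
    have h1 := ih (fun j => c (j + 1)) (fun j => hc (j + 1))
    have h2 : (2 : ℝ) ≤ c 0 := by exact_mod_cast hc 0
    have h3 : 1 / negCF (fun j => c (j + 1)) N ≤ 1 := by
      rw [div_le_one (by linarith)]
      exact h1
    simp only [negCF]
    linarith

lemma negCF_le (N : ℕ) (c : ℕ → ℕ) (hc : ∀ j, 2 ≤ c j) : negCF c N ≤ c 0 := by
  cases N with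
  | zero => simp [negCF]
  | succ N =>
    have h1 := negCF_ge_one N (fun j => c (j + 1)) (fun j => hc (j + 1))
    have h3 : 0 ≤ 1 / negCF (fun j => c (j + 1)) N := by positivity
    simp only [negCF]
    linarith

lemma inv_diff {u v d : ℝ} (hu : 1 ≤ u) (hv : 1 ≤ v) (hd : 0 < d) (h : |u - v| ≤ 1 / d) :
    |1 / u - 1 / v| ≤ 1 / (d + 1) := by
  wlog huv : u ≤ v generalizing u v with H
  · have := H hv hu (by rwa [abs_sub_comm]) (by linarith)
    rwa [abs_sub_comm] at this
  have h1 : 1 / u - 1 / v = (v - u) / (u * v) := by field_simp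
  have h2 : |u - v| = v - u := by rw [abs_sub_comm, abs_of_nonneg (by linarith)]
  rw [h2] at h
  rw [h1, abs_of_nonneg (by apply div_nonneg <;> nlinarith)]
  rw [div_le_div_iff₀ (by nlinarith) (by linarith)]
  rw [le_div_iff₀ hd] at h
  nlinarith [mul_nonneg (sub_nonneg.2 hu) (sub_nonneg.2 hv)]

lemma negCF_dig_sub : ∀ (N : ℕ) (x : ℝ), 1 ≤ x → |negCF (dig x) N - x| ≤ 1 / (N + 1) := by
  intro N
  induction N with
  | zero =>
    intro x hx
    simp only [negCF, dig, tl]
    have h1 : (⌊x⌋₊ : ℝ) ≤ x := Nat.floor_le (by linarith)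
    have h2 : x < (⌊x⌋₊ : ℝ) + 1 := Nat.lt_floor_add_one _
    push_cast
    rw [abs_le]
    constructor <;> norm_num <;> linarith
  | succ N ih =>
    intro x hx
    have hy := tl_ge_one hx 1
    have h1 := ih (tl x 1) hy
    have h2 : (fun j => dig x (j + 1)) = dig (tl x 1) := by
      funext j
      exact dig_succ' x j
    have h3 : negCF (dig x) (N + 1) = dig x 0 - 1 / negCF (dig (tl x 1)) N := by
      simp only [negCF, h2]
    have h4 := inv_diff (negCF_ge_one N _ (two_le_dig hy)) hy (by positivity) h1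
    have h5 : negCF (dig x) (N + 1) - x = -(1 / negCF (dig (tl x 1)) N - 1 / tl x 1) := by
      have h6 := eq_dig_sub x
      rw [h3]
      linarith
    rw [h5, abs_neg]
    push_cast
    exact h4

lemma tendsto_negCF_dig {x : ℝ} (hx : 1 ≤ x) : Tendsto (negCF (dig x)) atTop (𝓝 x) := by
  rw [tendsto_iff_dist_tendsto_zero]
  refine squeeze_zero (fun _ => dist_nonneg) (fun N => ?_) tendsto_one_div_add_atTop_nhds_zero_nat
  rw [Real.dist_eq]
  exact negCF_dig_sub N x hx

/-- If `[[c 0, c 1, …]] = x` then `1 ≤ x`, `c 0` is the first digit of `x`, and the rest of the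
digits give an expansion of the tail. -/
lemma first_digit {x : ℝ} {c : ℕ → ℕ} (hc : ∀ j, 2 ≤ c j)
    (h : Tendsto (negCF c) atTop (𝓝 x)) :
    1 ≤ x ∧ c 0 = dig x 0 ∧ Tendsto (negCF (fun j => c (j + 1))) atTop (𝓝 (tl x 1)) := by
  have hx : 1 ≤ x := ge_of_tendsto' h (fun N => negCF_ge_one N c hc)
  have h1 : Tendsto (fun N => negCF c (N + 1)) atTop (𝓝 x) :=
    (tendsto_add_atTop_iff_nat 1).2 h
  have h2 : ∀ N, negCF (fun j => c (j + 1)) N = 1 / (c 0 - negCF c (N + 1)) := by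
    intro N
    simp only [negCF]
    rw [sub_sub_cancel, one_div_one_div]
  have h3 : ∀ N, negCF c (N + 1) ≤ c 0 - 1 / c 1 := by
    intro N
    have h4 := negCF_ge_one N (fun j => c (j + 1)) (fun j => hc (j + 1))
    have h5 : negCF (fun j => c (j + 1)) N ≤ c 1 := negCF_le N _ (fun j => hc (j + 1))
    simp only [negCF]
    have : 1 / (c 1 : ℝ) ≤ 1 / negCF (fun j => c (j + 1)) N :=
      one_div_le_one_div_of_le (by linarith) h5
    linarith
  have h6 : x ≤ c 0 - 1 / c 1 := le_of_tendsto' h1 h3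
  have h7 : (0 : ℝ) < 1 / c 1 := by
    have : (0 : ℝ) < c 1 := by exact_mod_cast (by have := hc 1; omega : 0 < c 1)
    positivity
  have h8 : (c 0 : ℝ) ≤ x + 1 := by
    have : ∀ N, (c 0 : ℝ) - 1 ≤ negCF c (N + 1) := by
      intro N
      have h4 := negCF_ge_one N (fun j => c (j + 1)) (fun j => hc (j + 1))
      have : 1 / negCF (fun j => c (j + 1)) N ≤ 1 := by
        rw [div_le_one (by linarith)]
        exact h4
      simp only [negCF]
      linarith
    have := ge_of_tendsto' h1 this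
    linarith
  have h9 : c 0 = dig x 0 := by
    have h2 := hc 0
    have : ⌊x⌋₊ = c 0 - 1 := by
      rw [Nat.floor_eq_iff (by linarith)]
      push_cast [Nat.cast_sub (by omega : 1 ≤ c 0)]
      constructor <;> linarith
    simp only [dig, tl]
    omega
  refine ⟨hx, h9, ?_⟩
  have h10 : Tendsto (fun N => 1 / ((c 0 : ℝ) - negCF c (N + 1))) atTop
      (𝓝 (1 / ((c 0 : ℝ) - x))) := by
    apply Tendsto.div tendsto_const_nhds (tendsto_const_nhds.sub h1)
    linarith
  have h11 : tl x 1 = 1 / ((c 0 : ℝ) - x) := by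
    simp only [tl]
    rw [h9]
    simp only [dig, tl]
    push_cast
    rfl
  rw [h11]
  exact h10.congr (fun N => (h2 N).symm)

lemma digits_unique : ∀ (j : ℕ) (x : ℝ) (c : ℕ → ℕ), (∀ j, 2 ≤ c j) →
    Tendsto (negCF c) atTop (𝓝 x) → c j = dig x j := by
  intro j
  induction j with
  | zero =>
    intro x c hc h
    exact (first_digit hc h).2.1
  | succ j ih =>
    intro x c hc h
    have := ih (tl x 1) (fun j => c (j + 1)) (fun j => hc (j + 1)) (first_digit hc h).2.2
    rw [dig_succ']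
    exact this

/-! ### Power series -/

open PowerSeries in
/-- the `q`-integer as a polynomial, seen as a power series -/
noncomputable def psInt (n : ℕ) : PowerSeries ℚ := ∑ i ∈ Finset.range n, (X : PowerSeries ℚ) ^ i

/-- the truncation as a power series -/
noncomputable def psCF : (ℕ → ℕ) → ℕ → PowerSeries ℚ
  | c, 0 => psInt (c 0)
  | c, N + 1 => psInt (c 0) - PowerSeries.X ^ (c 0 - 1) * (psCF (fun j => c (j + 1)) N)⁻¹

lemma constCoeff_psInt {n : ℕ} (hn : 1 ≤ n) : PowerSeries.constantCoeff (psInt n) = 1 := by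
  unfold psInt
  rw [map_sum, Finset.sum_eq_single 0]
  · simp
  · intro b _ hb
    simp [hb]
  · intro h
    simp at h
    omega

lemma constCoeff_psCF : ∀ (N : ℕ) (c : ℕ → ℕ), (∀ j, 2 ≤ c j) →
    PowerSeries.constantCoeff (psCF c N) = 1 := by
  intro N
  cases N with
  | zero =>
    intro c hc
    exact constCoeff_psInt (by have := hc 0; omega)
  | succ N =>
    intro c hc
    have h0 := hc 0
    simp only [psCF, map_sub, map_mul, map_pow, PowerSeries.constantCoeff_X]
    rw [constCoeff_psInt (by omega), zero_pow (by omega)]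
    simp

lemma qInt_eq (n : ℕ) : qInt n = HahnSeries.ofPowerSeries ℤ ℚ (psInt n) := by
  have hq : (q : LaurentSeries ℚ) ≠ 1 := by
    intro h
    have := congrArg (fun f : LaurentSeries ℚ => f.coeff 1) h
    simp [q, HahnSeries.coeff_one] at this
  have h1 : (1 : LaurentSeries ℚ) - q ≠ 0 := sub_ne_zero.2 (Ne.symm hq)
  have h2 : HahnSeries.ofPowerSeries ℤ ℚ (psInt n) = ∑ i ∈ Finset.range n, q ^ i := by
    unfold psInt q
    rw [map_sum]
    refine Finset.sum_congr rfl fun i _ => ?_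
    rw [map_pow, HahnSeries.ofPowerSeries_X]
  rw [h2, qInt, div_eq_iff h1]
  have := mul_neg_geom_sum q n
  rw [← this]
  ring

lemma qNegCF_eq : ∀ (N : ℕ) (c : ℕ → ℕ), (∀ j, 2 ≤ c j) →
    qNegCF c N = HahnSeries.ofPowerSeries ℤ ℚ (psCF c N) := by
  intro N
  induction N with
  | zero =>
    intro c _
    simp only [qNegCF, psCF]
    exact qInt_eq _
  | succ N ih =>
    intro c hc
    have h1 := ih (fun j => c (j + 1)) (fun j => hc (j + 1))
    have h2 := constCoeff_psCF N (fun j => c (j + 1)) (fun j => hc (j + 1))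
    simp only [qNegCF, psCF]
    rw [h1, qInt_eq, map_sub, map_mul, map_pow, HahnSeries.ofPowerSeries_X]
    congr 1
    have h3 : HahnSeries.ofPowerSeries ℤ ℚ (psCF (fun j => c (j + 1)) N) *
        HahnSeries.ofPowerSeries ℤ ℚ ((psCF (fun j => c (j + 1)) N)⁻¹) = 1 := by
      rw [← map_mul, PowerSeries.mul_inv_cancel _ (by rw [h2]; exact one_ne_zero), map_one]
    rw [div_eq_mul_inv]
    congr 1
    exact (eq_inv_of_mul_eq_one_right h3).symm

lemma X_pow_dvd_sub : ∀ (N : ℕ) (c : ℕ → ℕ), (∀ j, 2 ≤ c j) → ∀ M, N ≤ M →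
    (PowerSeries.X : PowerSeries ℚ) ^ (N + 1) ∣ psCF c M - psCF c N := by
  intro N
  induction N with
  | zero =>
    intro c hc M _
    have h0 := hc 0
    cases M with
    | zero => simp
    | succ M =>
      simp only [psCF]
      rw [sub_sub_cancel_left, dvd_neg, zero_add]
      exact Dvd.dvd.mul_right (pow_dvd_pow _ (by omega)) _
  | succ N ih =>
    intro c hc M hM
    have h0 := hc 0
    obtain ⟨M, rfl⟩ : ∃ M', M = M' + 1 := ⟨M - 1, by omega⟩
    have h1 := ih (fun j => c (j + 1)) (fun j => hc (j + 1)) M (by omega)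
    have hA := constCoeff_psCF M (fun j => c (j + 1)) (fun j => hc (j + 1))
    have hB := constCoeff_psCF N (fun j => c (j + 1)) (fun j => hc (j + 1))
    simp only [psCF]
    set A := psCF (fun j => c (j + 1)) M
    set B := psCF (fun j => c (j + 1)) N
    have hA1 : A * A⁻¹ = 1 := PowerSeries.mul_inv_cancel _ (by rw [hA]; exact one_ne_zero)
    have hB1 : B * B⁻¹ = 1 := PowerSeries.mul_inv_cancel _ (by rw [hB]; exact one_ne_zero)
    have h2 : psInt (c 0) - PowerSeries.X ^ (c 0 - 1) * A⁻¹ -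
        (psInt (c 0) - PowerSeries.X ^ (c 0 - 1) * B⁻¹) =
        PowerSeries.X ^ (c 0 - 1) * ((A - B) * (A⁻¹ * B⁻¹)) := by
      have : (A - B) * (A⁻¹ * B⁻¹) = (A * A⁻¹) * B⁻¹ - (B * B⁻¹) * A⁻¹ := by ring
      rw [this, hA1, hB1]
      ring
    rw [h2, pow_succ' _ (N + 1)]
    refine mul_dvd_mul ?_ (Dvd.dvd.mul_right h1 _)
    calc (PowerSeries.X : PowerSeries ℚ) = PowerSeries.X ^ 1 := (pow_one _).symm
      _ ∣ _ := pow_dvd_pow _ (by omega)

/-- the `q`-adic limit -/
noncomputable def psLim (c : ℕ → ℕ) : PowerSeries ℚ :=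
  PowerSeries.mk fun n => PowerSeries.coeff n (psCF c n)

lemma coeff_psLim {c : ℕ → ℕ} (hc : ∀ j, 2 ≤ c j) {n M : ℕ} (h : n ≤ M) :
    PowerSeries.coeff n (psCF c M) = PowerSeries.coeff n (psLim c) := by
  have h1 := X_pow_dvd_sub n c hc M h
  rw [PowerSeries.X_pow_dvd_iff] at h1
  have h2 := h1 n (by omega)
  rw [map_sub, sub_eq_zero] at h2
  rw [h2, psLim, PowerSeries.coeff_mk]

/-- `[x]_q` for `x ≥ 1` -/
noncomputable def psReal (x : ℝ) : PowerSeries ℚ := psLim (dig x)

lemma psInt_succ (n : ℕ) : psInt (n + 1) = 1 + PowerSeries.X * psInt n := by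
  unfold psInt
  rw [Finset.sum_range_succ', Finset.mul_sum, pow_zero, add_comm]
  congr 1
  refine Finset.sum_congr rfl fun i _ => ?_
  ring

lemma psReal_shift {x : ℝ} (hx : 2 ≤ x) :
    psReal x = 1 + PowerSeries.X * psReal (x - 1) := by
  have hx1 : (1 : ℝ) ≤ x := by linarith
  have hx2 : (1 : ℝ) ≤ x - 1 := by linarith
  have hd0 : dig x 0 = dig (x - 1) 0 + 1 := by
    simp only [dig, tl]
    have : ⌊x⌋₊ = ⌊x - 1 + 1⌋₊ := by ring_nf
    rw [this, Nat.floor_add_one (by linarith)]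
  have ht : tl x 1 = tl (x - 1) 1 := by
    have h := hd0
    simp only [dig, tl] at h
    simp only [tl]
    have h' : (⌊x⌋₊ : ℝ) = ⌊x - 1⌋₊ + 1 := by
      have : ⌊x⌋₊ = ⌊x - 1⌋₊ + 1 := by omega
      rw [this]
      push_cast
      ring
    rw [h']
    ring_nf
  have hds : ∀ j, dig x (j + 1) = dig (x - 1) (j + 1) := by
    intro j
    rw [dig_succ', dig_succ', ht]
  have h2 := two_le_dig hx2 0
  have hcf : ∀ N, psCF (dig x) N = 1 + PowerSeries.X * psCF (dig (x - 1)) N := by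
    intro N
    cases N with
    | zero =>
      simp only [psCF]
      rw [hd0, psInt_succ]
    | succ N =>
      simp only [psCF]
      simp only [hds]
      rw [hd0, psInt_succ]
      have : dig (x - 1) 0 + 1 - 1 = (dig (x - 1) 0 - 1) + 1 := by omega
      rw [this, pow_succ]
      ring
  ext n
  unfold psReal
  rw [← coeff_psLim (two_le_dig hx1) (le_refl n), hcf]
  cases n with
  | zero => simp
  | succ n =>
    rw [map_add, map_add, PowerSeries.coeff_succ_X_mul, PowerSeries.coeff_succ_X_mul,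
      coeff_psLim (two_le_dig hx2) (by omega)]

/-- the map `f ↦ q⁻¹ (f - 1)` -/
noncomputable def dn (f : LaurentSeries ℚ) : LaurentSeries ℚ := q⁻¹ * (f - 1)

/-- the `q`-deformation of the reals -/
noncomputable def qReal (x : ℝ) : LaurentSeries ℚ :=
  dn^[⌈1 - x⌉₊] (HahnSeries.ofPowerSeries ℤ ℚ (psReal (x + ⌈1 - x⌉₊)))

lemma q_ne_zero : q ≠ 0 := by
  unfold q
  exact HahnSeries.single_ne_zero one_ne_zero

lemma qReal_of_ge {x : ℝ} (hx : 1 ≤ x) :
    qReal x = HahnSeries.ofPowerSeries ℤ ℚ (psReal x) := by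
  unfold qReal
  have : ⌈1 - x⌉₊ = 0 := by
    rw [Nat.ceil_eq_zero]
    linarith
  rw [this]
  simp

lemma qReal_shift (x : ℝ) : qReal (x - 1) = q⁻¹ * (qReal x - 1) := by
  by_cases h2 : 2 ≤ x
  · rw [qReal_of_ge (by linarith : (1 : ℝ) ≤ x - 1), qReal_of_ge (by linarith : (1 : ℝ) ≤ x),
      psReal_shift h2, map_add, map_mul, map_one, HahnSeries.ofPowerSeries_X]
    have : (HahnSeries.single 1 1 : LaurentSeries ℚ) = q := rfl
    rw [this, add_sub_cancel_left, ← mul_assoc, inv_mul_cancel₀ q_ne_zero, one_mul]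
  · push Not at h2
    have h3 : ⌈1 - (x - 1)⌉₊ = ⌈1 - x⌉₊ + 1 := by
      have : 1 - (x - 1) = (1 - x) + 1 := by ring
      rw [this]
      by_cases h1 : x ≤ 1
      · exact Nat.ceil_add_one (by linarith)
      · push Not at h1
        have h4 : ⌈1 - x⌉₊ = 0 := by
          rw [Nat.ceil_eq_zero]
          linarith
        rw [h4, zero_add, Nat.ceil_eq_iff one_ne_zero]
        constructor <;> norm_num <;> linarith
    have h5 : x - 1 + (⌈1 - (x - 1)⌉₊ : ℕ) = x + (⌈1 - x⌉₊ : ℕ) := by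
      rw [h3]
      push_cast
      ring
    unfold qReal
    rw [h5, h3, Function.iterate_succ_apply']
    rfl

lemma coeff_ofPS_neg (f : PowerSeries ℚ) {m : ℤ} (hm : m < 0) :
    (HahnSeries.ofPowerSeries ℤ ℚ f).coeff m = 0 := by
  rw [PowerSeries.coeff_coe]
  simp [hm]

lemma coeff_ofPS (f : PowerSeries ℚ) (n : ℕ) :
    (HahnSeries.ofPowerSeries ℤ ℚ f).coeff (n : ℤ) = PowerSeries.coeff n f := by
  exact HahnSeries.ofPowerSeries_apply_coeff f n

lemma qadic_limit {x : ℝ} (hx : 1 ≤ x) (M : ℤ) :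
    ∀ᶠ N in atTop, ∀ m ≤ M, (qNegCF (dig x) N).coeff m = (qReal x).coeff m := by
  filter_upwards [eventually_ge_atTop M.toNat] with N hN m hm
  rw [qNegCF_eq N _ (two_le_dig hx), qReal_of_ge hx]
  rcases lt_or_ge m 0 with h | h
  · rw [coeff_ofPS_neg _ h, coeff_ofPS_neg _ h]
  · obtain ⟨n, rfl⟩ := Int.eq_ofNat_of_zero_le h
    rw [coeff_ofPS, coeff_ofPS, psReal]
    exact coeff_psLim (two_le_dig hx) (by omega)

lemma isQDeformation_qReal : IsQDeformation qReal where
  limit := by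
    intro x c hc h M
    have hx := (first_digit hc h).1
    have hcd : c = dig x := by
      funext j
      exact digits_unique j x c hc h
    rw [hcd]
    exact qadic_limit hx M
  shift := qReal_shift

lemma IsQDeformation.unique {Q : ℝ → LaurentSeries ℚ} (hQ : IsQDeformation Q) : Q = qReal := by
  have key : ∀ (k : ℕ) (x : ℝ), 1 ≤ x + k → Q x = qReal x := by
    intro k
    induction k with
    | zero =>
      intro x hx
      have hx1 : 1 ≤ x := by simpa using hx
      ext m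
      have h1 := hQ.limit x (dig x) (two_le_dig hx1) (tendsto_negCF_dig hx1) m
      have h2 := qadic_limit hx1 m
      obtain ⟨N, hN1, hN2⟩ := (h1.and h2).exists
      rw [← hN1 m le_rfl, ← hN2 m le_rfl]
    | succ k ih =>
      intro x hx
      have h1 := ih (x + 1) (by push_cast at hx; linarith)
      have h2 := hQ.shift (x + 1)
      have h3 := qReal_shift (x + 1)
      rw [add_sub_cancel_right] at h2 h3
      rw [h2, h3, h1]
  funext x
  obtain ⟨k, hk⟩ := exists_nat_ge (1 - x)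
  exact key k x (by linarith)

/-! ### The invariant disc -/

/-- `w` lies in the disc `‖w - 1‖ ≤ 1 - ‖z‖` and is nonzero. -/
def InDisc (z w : ℂ) : Prop := ‖w - 1‖ ≤ 1 - ‖z‖ ∧ w ≠ 0

lemma radius_ineq {r : ℝ} (h : r < (3 - √5) / 2) : r < 1 ∧ 0 ≤ 1 - 3 * r + r ^ 2 := by
  have h5 : √5 ^ 2 = 5 := Real.sq_sqrt (by norm_num)
  have h50 : 0 ≤ √5 := Real.sqrt_nonneg 5
  have h6 : 1 < √5 := by nlinarith
  constructor
  · nlinarith
  · nlinarith

lemma inDisc_T {z w : ℂ} (hz : ‖z‖ < (3 - √5) / 2) (hw : InDisc z w) :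
    InDisc z (1 + z * w) := by
  obtain ⟨h1, h2⟩ := radius_ineq hz
  have h0 : 0 ≤ ‖z‖ := norm_nonneg z
  have hwn : ‖w‖ ≤ 2 - ‖z‖ := by
    have : ‖w‖ ≤ ‖w - 1‖ + ‖(1 : ℂ)‖ := by
      have := norm_add_le (w - 1) 1
      simpa using this
    rw [norm_one] at this
    linarith [hw.1]
  have h3 : ‖(1 + z * w) - 1‖ ≤ 1 - ‖z‖ := by
    rw [add_sub_cancel_left, norm_mul]
    nlinarith
  refine ⟨h3, ?_⟩
  intro h
  rw [h, zero_sub, norm_neg, norm_one] at h3
  have hz0 : ‖z‖ = 0 := by linarith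
  rw [norm_eq_zero] at hz0
  rw [hz0] at h
  simp at h

lemma inDisc_TS {z w : ℂ} (hz : ‖z‖ < (3 - √5) / 2) (hw : InDisc z w) :
    InDisc z (1 + z * (1 - 1 / w)) := by
  obtain ⟨h1, h2⟩ := radius_ineq hz
  have h0 : 0 ≤ ‖z‖ := norm_nonneg z
  have hwpos : 0 < ‖w‖ := norm_pos_iff.2 hw.2
  have hwn : ‖z‖ ≤ ‖w‖ := by
    have : ‖(1 : ℂ)‖ ≤ ‖w‖ + ‖w - 1‖ := by
      have h := norm_sub_le w (w - 1)
      simpa using h
    rw [norm_one] at this
    linarith [hw.1]
  have h3 : ‖(1 + z * (1 - 1 / w)) - 1‖ ≤ 1 - ‖z‖ := by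
    have : (1 + z * (1 - 1 / w)) - 1 = z * (w - 1) / w := by
      field_simp [hw.2]
      ring
    rw [this, norm_div, norm_mul, div_le_iff₀ hwpos]
    have h4 := hw.1
    calc ‖z‖ * ‖w - 1‖ ≤ ‖w‖ * (1 - ‖z‖) :=
          mul_le_mul hwn h4 (norm_nonneg _) (norm_nonneg _)
      _ = (1 - ‖z‖) * ‖w‖ := mul_comm _ _
  refine ⟨h3, ?_⟩
  intro h
  rw [h, zero_sub, norm_neg, norm_one] at h3
  have hz0 : ‖z‖ = 0 := by linarith
  rw [norm_eq_zero] at hz0
  rw [hz0] at h
  simp at h

lemma inDisc_int {z : ℂ} (hz : ‖z‖ < (3 - √5) / 2) (n : ℕ) :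
    InDisc z (∑ i ∈ Finset.range (n + 1), z ^ i) := by
  obtain ⟨h1, h2⟩ := radius_ineq hz
  induction n with
  | zero =>
    simp only [zero_add, Finset.range_one, Finset.sum_singleton, pow_zero]
    refine ⟨?_, one_ne_zero⟩
    simp only [sub_self, norm_zero]
    linarith
  | succ n ih =>
    have := inDisc_T hz ih
    have h3 : 1 + z * ∑ i ∈ Finset.range (n + 1), z ^ i = ∑ i ∈ Finset.range (n + 1 + 1), z ^ i := by
      rw [Finset.sum_range_succ' _ (n + 1), Finset.mul_sum, pow_zero, add_comm]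
      congr 1
      refine Finset.sum_congr rfl fun i _ => ?_
      ring
    rwa [h3] at this

lemma inDisc_step {z w : ℂ} (hz : ‖z‖ < (3 - √5) / 2) (hw : InDisc z w) (n : ℕ) :
    InDisc z ((∑ i ∈ Finset.range (n + 2), z ^ i) - z ^ (n + 1) / w) := by
  induction n with
  | zero =>
    have := inDisc_TS hz hw
    have h3 : 1 + z * (1 - 1 / w) =
        (∑ i ∈ Finset.range (0 + 2), z ^ i) - z ^ (0 + 1) / w := by
      simp [Finset.sum_range_succ]
      ring
    rwa [h3] at this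
  | succ n ih =>
    have := inDisc_T hz ih
    have h3 : 1 + z * ((∑ i ∈ Finset.range (n + 2), z ^ i) - z ^ (n + 1) / w) =
        (∑ i ∈ Finset.range (n + 1 + 2), z ^ i) - z ^ (n + 1 + 1) / w := by
      rw [Finset.sum_range_succ' _ (n + 2), mul_sub, Finset.mul_sum, pow_zero]
      have : ∀ i ∈ Finset.range (n + 2), z * z ^ i = z ^ (i + 1) := by
        intro i _
        ring
      rw [Finset.sum_congr rfl this]
      ring
    rwa [h3] at this

/-- the truncation as a function of a complex number -/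
noncomputable def cCF : (ℕ → ℕ) → ℕ → ℂ → ℂ
  | c, 0 => fun z => ∑ i ∈ Finset.range (c 0), z ^ i
  | c, N + 1 => fun z => (∑ i ∈ Finset.range (c 0), z ^ i) -
      z ^ (c 0 - 1) / cCF (fun j => c (j + 1)) N z

lemma inDisc_cCF : ∀ (N : ℕ) (c : ℕ → ℕ), (∀ j, 2 ≤ c j) → ∀ z : ℂ, ‖z‖ < (3 - √5) / 2 →
    InDisc z (cCF c N z) := by
  intro N
  induction N with
  | zero =>
    intro c hc z hz
    have h0 := hc 0
    obtain ⟨n, hn⟩ : ∃ n, c 0 = n + 1 := ⟨c 0 - 1, by omega⟩
    simp only [cCF, hn]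
    exact inDisc_int hz n
  | succ N ih =>
    intro c hc z hz
    have h0 := hc 0
    obtain ⟨n, hn⟩ : ∃ n, c 0 = n + 2 := ⟨c 0 - 2, by omega⟩
    have h1 := ih (fun j => c (j + 1)) (fun j => hc (j + 1)) z hz
    simp only [cCF, hn]
    exact inDisc_step hz h1 n

lemma analyticAt_cCF : ∀ (N : ℕ) (c : ℕ → ℕ), (∀ j, 2 ≤ c j) → ∀ z : ℂ, ‖z‖ < (3 - √5) / 2 →
    AnalyticAt ℂ (cCF c N) z := by
  intro N
  induction N with
  | zero =>
    intro c _ z _
    simp only [cCF]
    fun_prop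
  | succ N ih =>
    intro c hc z hz
    have h1 := ih (fun j => c (j + 1)) (fun j => hc (j + 1)) z hz
    have h2 := (inDisc_cCF N (fun j => c (j + 1)) (fun j => hc (j + 1)) z hz).2
    simp only [cCF]
    apply AnalyticAt.sub
    · fun_prop
    · exact AnalyticAt.div (by fun_prop) h1 h2

/-! ### Taylor series at `0` -/

/-- the Taylor series at `0` -/
noncomputable def tay (f : ℂ → ℂ) : PowerSeries ℂ :=
  PowerSeries.mk fun n => iteratedDeriv n f 0 / n.factorial

lemma tay_mul {f g : ℂ → ℂ} (hf : AnalyticAt ℂ f 0) (hg : AnalyticAt ℂ g 0) :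
    tay (fun z => f z * g z) = tay f * tay g := by
  ext n
  have h : (fun z => f z * g z) = f * g := rfl
  simp only [tay, PowerSeries.coeff_mul, PowerSeries.coeff_mk]
  rw [h, iteratedDeriv_mul hf.contDiffAt hg.contDiffAt, Finset.sum_div,
    Finset.Nat.sum_antidiagonal_eq_sum_range_succ_mk]
  refine Finset.sum_congr rfl fun i hi => ?_
  rw [Nat.cast_choose ℂ (by simpa [Nat.lt_succ_iff] using hi)]
  field_simp [Nat.factorial_ne_zero]

lemma tay_sub {f g : ℂ → ℂ} (hf : AnalyticAt ℂ f 0) (hg : AnalyticAt ℂ g 0) :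
    tay (fun z => f z - g z) = tay f - tay g := by
  ext n
  have h : (fun z => f z - g z) = f - g := rfl
  simp only [tay, PowerSeries.coeff_mk, map_sub]
  rw [h, iteratedDeriv_sub hf.contDiffAt hg.contDiffAt, sub_div]

lemma tay_pow (k : ℕ) : tay (fun z => z ^ k) = PowerSeries.X ^ k := by
  ext n
  simp only [tay, PowerSeries.coeff_mk, PowerSeries.coeff_X_pow]
  rw [iteratedDeriv_fun_pow_zero]
  split_ifs with h
  · rw [h]
    exact div_self (Nat.cast_ne_zero.2 (Nat.factorial_ne_zero _))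
  · simp

lemma tay_geom (n : ℕ) : tay (fun z => ∑ i ∈ Finset.range n, z ^ i) =
    ∑ i ∈ Finset.range n, PowerSeries.X ^ i := by
  induction n with
  | zero =>
    ext m
    simp [tay]
  | succ n ih =>
    have h1 : (fun z : ℂ => ∑ i ∈ Finset.range (n + 1), z ^ i) =
        (fun z : ℂ => (∑ i ∈ Finset.range n, z ^ i) + z ^ n) := by
      funext z
      rw [Finset.sum_range_succ]
    have h2 : tay (fun z : ℂ => (∑ i ∈ Finset.range n, z ^ i) + z ^ n) =
        tay (fun z => ∑ i ∈ Finset.range n, z ^ i) + tay (fun z => z ^ n) := by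
      ext m
      have h : (fun z : ℂ => (∑ i ∈ Finset.range n, z ^ i) + z ^ n) =
        (fun z : ℂ => (∑ i ∈ Finset.range n, z ^ i)) + (fun z : ℂ => z ^ n) := rfl
      simp only [tay, PowerSeries.coeff_mk, map_add]
      rw [h, iteratedDeriv_add (by fun_prop) (by fun_prop), add_div]
    rw [h1, h2, ih, tay_pow, Finset.sum_range_succ]

lemma rc_pos : (0 : ℝ) < (3 - √5) / 2 := by
  have h5 : √5 ^ 2 = 5 := Real.sq_sqrt (by norm_num)
  have h50 : 0 ≤ √5 := Real.sqrt_nonneg 5
  nlinarith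

lemma tay_cCF : ∀ (N : ℕ) (c : ℕ → ℕ), (∀ j, 2 ≤ c j) →
    tay (cCF c N) = PowerSeries.map (algebraMap ℚ ℂ) (psCF c N) := by
  have hz : ‖(0 : ℂ)‖ < (3 - √5) / 2 := by
    rw [norm_zero]
    exact rc_pos
  have hint : ∀ n, tay (fun z => ∑ i ∈ Finset.range n, z ^ i) =
      PowerSeries.map (algebraMap ℚ ℂ) (psInt n) := by
    intro n
    rw [tay_geom, psInt, map_sum]
    refine Finset.sum_congr rfl fun i _ => ?_
    rw [map_pow, PowerSeries.map_X]
  intro N
  induction N with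
  | zero =>
    intro c _
    simp only [cCF, psCF]
    exact hint _
  | succ N ih =>
    intro c hc
    have h1 := ih (fun j => c (j + 1)) (fun j => hc (j + 1))
    have h2 := analyticAt_cCF N (fun j => c (j + 1)) (fun j => hc (j + 1)) 0 hz
    have h3 := (inDisc_cCF N (fun j => c (j + 1)) (fun j => hc (j + 1)) 0 hz).2
    have hA := constCoeff_psCF N (fun j => c (j + 1)) (fun j => hc (j + 1))
    simp only [cCF, psCF]
    set g := cCF (fun j => c (j + 1)) N
    set A := psCF (fun j => c (j + 1)) N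
    have hA1 : A * A⁻¹ = 1 := PowerSeries.mul_inv_cancel _ (by rw [hA]; exact one_ne_zero)
    have h4 : AnalyticAt ℂ (fun z => (g z)⁻¹) 0 := h2.inv h3
    have h5 : tay (fun z => g z * (g z)⁻¹) = 1 := by
      have h6 : ∀ᶠ z in 𝓝 (0 : ℂ), g z * (g z)⁻¹ = z ^ 0 := by
        have : ∀ᶠ z in 𝓝 (0 : ℂ), g z ≠ 0 := h2.continuousAt.eventually_ne h3
        filter_upwards [this] with z hz
        rw [mul_inv_cancel₀ hz, pow_zero]
      have h7 : tay (fun z => g z * (g z)⁻¹) = tay (fun z => z ^ 0) := by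
        ext n
        simp only [tay, PowerSeries.coeff_mk]
        rw [Filter.EventuallyEq.iteratedDeriv_eq n h6]
      rw [h7, tay_pow, pow_zero]
    have h8 : tay g * tay (fun z => (g z)⁻¹) = 1 := by
      rw [← tay_mul h2 h4, h5]
    have h9 : tay (fun z => (g z)⁻¹) = PowerSeries.map (algebraMap ℚ ℂ) A⁻¹ := by
      have h10 : PowerSeries.map (algebraMap ℚ ℂ) A * PowerSeries.map (algebraMap ℚ ℂ) A⁻¹ = 1 := by
        rw [← map_mul, hA1, map_one]
      have h11 : tay g = PowerSeries.map (algebraMap ℚ ℂ) A := h1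
      rw [← h11] at h10
      calc tay (fun z => (g z)⁻¹)
          = tay (fun z => (g z)⁻¹) * (tay g * PowerSeries.map (algebraMap ℚ ℂ) A⁻¹) := by
            rw [h10, mul_one]
        _ = (tay g * tay (fun z => (g z)⁻¹)) * PowerSeries.map (algebraMap ℚ ℂ) A⁻¹ := by ring
        _ = _ := by rw [h8, one_mul]
    have h12 : (fun z : ℂ => (∑ i ∈ Finset.range (c 0), z ^ i) - z ^ (c 0 - 1) / g z) =
        (fun z : ℂ => (∑ i ∈ Finset.range (c 0), z ^ i) - z ^ (c 0 - 1) * (g z)⁻¹) := by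
      funext z
      rw [div_eq_mul_inv]
    have h13 : AnalyticAt ℂ (fun z : ℂ => z ^ (c 0 - 1)) 0 := by fun_prop
    have h14 : AnalyticAt ℂ (fun z : ℂ => ∑ i ∈ Finset.range (c 0), z ^ i) 0 := by fun_prop
    have h15 : AnalyticAt ℂ (fun z : ℂ => z ^ (c 0 - 1) * (g z)⁻¹) 0 := h13.mul h4
    rw [h12, tay_sub h14 h15, tay_mul h13 h4, hint, tay_pow, h9, map_sub, map_mul, map_pow,
      PowerSeries.map_X]

/-! ### Coefficient bounds -/

lemma coeff_bound {ρ : ℝ} (h0 : 0 < ρ) (h1 : ρ < (3 - √5) / 2) (N : ℕ) (c : ℕ → ℕ)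
    (hc : ∀ j, 2 ≤ c j) (n : ℕ) :
    ‖((PowerSeries.coeff n (psCF c N) : ℚ) : ℂ)‖ * ρ ^ n ≤ 2 := by
  have hd : DiffContOnCl ℂ (cCF c N) (Metric.ball 0 ρ) := by
    have h : DifferentiableOn ℂ (cCF c N) (Metric.closedBall 0 ρ) := by
      intro z hz
      rw [mem_closedBall_zero_iff] at hz
      exact (analyticAt_cCF N c hc z (by linarith)).differentiableAt.differentiableWithinAt
    exact h.diffContOnCl_ball Set.Subset.rfl
  have hb : ∀ z ∈ Metric.sphere (0 : ℂ) ρ, ‖cCF c N z‖ ≤ 2 := by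
    intro z hz
    rw [mem_sphere_zero_iff_norm] at hz
    have h2 := (inDisc_cCF N c hc z (by linarith)).1
    have h3 : ‖cCF c N z‖ ≤ ‖cCF c N z - 1‖ + ‖(1 : ℂ)‖ := by
      have := norm_add_le (cCF c N z - 1) 1
      simpa using this
    rw [norm_one] at h3
    have := norm_nonneg z
    linarith
  have h2 := Complex.norm_iteratedDeriv_le_of_forall_mem_sphere_norm_le n h0 hd hb
  have h3 : ((PowerSeries.coeff n (psCF c N) : ℚ) : ℂ) = iteratedDeriv n (cCF c N) 0 / n.factorial := by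
    have h4 := congrArg (PowerSeries.coeff n) (tay_cCF N c hc)
    rw [PowerSeries.coeff_map, tay, PowerSeries.coeff_mk] at h4
    rw [h4]
    rfl
  have hf : (0 : ℝ) < n.factorial := by exact_mod_cast Nat.factorial_pos n
  have hρ : 0 < ρ ^ n := pow_pos h0 n
  rw [h3, norm_div, Complex.norm_natCast, div_mul_eq_mul_div, div_le_iff₀ hf]
  rw [le_div_iff₀ hρ] at h2
  linarith

/-- For every `ρ < (3 - √5)/2` the numbers `|a_n| ρ ^ n`, `n ≥ 0`, are bounded. -/
def Good (f : LaurentSeries ℚ) : Prop :=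
  ∀ ρ : ℝ, 0 < ρ → ρ < (3 - √5) / 2 → ∃ C : ℝ, ∀ n : ℕ,
    ‖((f.coeff (n : ℤ) : ℚ) : ℂ)‖ * ρ ^ n ≤ C

lemma coeff_dn (f : LaurentSeries ℚ) (n : ℕ) :
    (dn f).coeff (n : ℤ) = f.coeff ((n + 1 : ℕ) : ℤ) := by
  unfold dn q
  have h1 : (HahnSeries.single 1 1 : LaurentSeries ℚ)⁻¹ = HahnSeries.single (-1) 1 := by
    rw [HahnSeries.inv_single]
    simp
  rw [h1]
  have h2 : (n : ℤ) = (n + 1 : ℤ) + (-1) := by ring
  rw [h2, HahnSeries.coeff_single_mul_add, one_mul]
  rw [HahnSeries.coeff_sub, HahnSeries.coeff_one]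
  have h3 : ((n : ℤ) + 1) ≠ 0 := by positivity
  push_cast
  simp [h3]

lemma Good.dn {f : LaurentSeries ℚ} (hf : Good f) : Good (dn f) := by
  intro ρ h0 h1
  obtain ⟨C, hC⟩ := hf ρ h0 h1
  refine ⟨C / ρ, fun n => ?_⟩
  have := hC (n + 1)
  rw [coeff_dn, le_div_iff₀ h0]
  rw [pow_succ, ← mul_assoc] at this
  exact this

lemma Good.iter {f : LaurentSeries ℚ} (hf : Good f) (k : ℕ) :
    Good (RadiusBound.dn^[k] f) := by
  induction k with
  | zero => exact hf
  | succ k ih =>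
    rw [Function.iterate_succ_apply']
    exact ih.dn

lemma good_qReal (x : ℝ) : Good (qReal x) := by
  unfold qReal
  apply Good.iter
  have hx : 1 ≤ x + (⌈1 - x⌉₊ : ℕ) := by
    have := Nat.le_ceil (1 - x)
    linarith
  intro ρ h0 h1
  refine ⟨2, fun n => ?_⟩
  rw [coeff_ofPS, psReal, ← coeff_psLim (two_le_dig hx) (le_refl n)]
  exact coeff_bound h0 h1 n _ (two_le_dig hx) n

lemma Good.le_radius {f : LaurentSeries ℚ} (hf : Good f) :
    ENNReal.ofReal ((3 - √5) / 2) ≤ convRadius f := by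
  refine le_of_forall_lt fun a ha => ?_
  have ha1 : a ≠ ⊤ := ne_top_of_lt ha
  obtain ⟨b, hab, hb⟩ := exists_between ha
  have hb1 : b ≠ ⊤ := ne_top_of_lt hb
  have hbpos : 0 < b.toReal := ENNReal.toReal_pos (ne_of_gt (lt_of_le_of_lt bot_le hab)) hb1
  have hb2 : b.toReal < (3 - √5) / 2 := by
    rw [← ENNReal.toReal_ofReal rc_pos.le]
    exact (ENNReal.toReal_lt_toReal hb1 ENNReal.ofReal_ne_top).2 hb
  obtain ⟨C, hC⟩ := hf b.toReal hbpos hb2
  refine lt_of_lt_of_le hab ?_
  have h3 : ((b.toNNReal : NNReal) : ENNReal) ≤ convRadius f := by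
    apply FormalMultilinearSeries.le_radius_of_bound _ C
    intro n
    rw [FormalMultilinearSeries.ofScalars_norm]
    exact hC n
  rwa [ENNReal.coe_toNNReal hb1] at h3

/-- **Main result.** There is exactly one `q`-deformation `x ↦ [x]_q` of the real numbers, and
for every real number `x` the radius of convergence of `[x]_q` is at least `(3 - √5) / 2`. -/
theorem result : ∃ Q : ℝ → LaurentSeries ℚ,
    IsQDeformation Q ∧ (∀ Q', IsQDeformation Q' → Q' = Q) ∧
    ∀ x : ℝ, ENNReal.ofReal ((3 - √5) / 2) ≤ convRadius (Q x) :=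
  ⟨qReal, isQDeformation_qReal, fun _ h => h.unique, fun x => (good_qReal x).le_radius⟩

end Pool.Agent.Results.MP_b13893_an.RadiusBound
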